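import Pool.Agent.E8helper20.CTM.StmD
import Pool.Agent.E8helper2.CT3.Sup

/-!
# Project CTM: the supplementary laws (part M1)
-/

set_option autoImplicit false
set_option linter.unusedVariables false

namespace Pool.Agent.E8helper89.CTM

open Pool.Agent.E8helper20.CTM
open Pool.Agent.E8helper20.CTK3 (yd)
open Pool.Agent.Y692.QS hiding chi
open Pool.Agent.Y715.T.Rec (cs nn)
open Pool.Agent.Y715.T.RecG (Pq cs_pow cs_neg)
open scoped Classical

lemma prim_iff {α : Ei} (h : (3 : Ei) ∣ α - 1) : ∃ x y : ℤ, α.re = 1 + 3 * x ∧ α.im = 3 * y := by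
  have h3' : (((3 : ℤ) : Ei)) ∣ α - 1 := by exact_mod_cast h
  obtain ⟨⟨x, hx⟩, ⟨y, hy⟩⟩ := int_dvd.1 h3'
  rw [QuadraticAlgebra.re_sub, QuadraticAlgebra.re_one] at hx
  rw [QuadraticAlgebra.im_sub, QuadraticAlgebra.im_one, sub_zero] at hy
  exact ⟨x, y, by linarith, hy⟩

lemma xd_of {α : Ei} {x : ℤ} (h : α.re = 1 + 3 * x) : xd α = (x : ZMod 3) := by
  unfold xd
  rw [h, add_sub_cancel_left, Int.mul_ediv_cancel_left _ (by norm_num)]

lemma yd_of {α : Ei} {y : ℤ} (h : α.im = 3 * y) : yd α = (y : ZMod 3) := by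
  unfold yd
  rw [h, Int.mul_ediv_cancel_left _ (by norm_num)]

lemma three_zero : (3 : ZMod 3) = 0 := by decide

/-- the digits of a product -/
lemma digits {α β : Ei} (ha : (3 : Ei) ∣ α - 1) (hb : (3 : Ei) ∣ β - 1) :
    c2 (α * β) = c2 α + c2 β ∧ c3 (α * β) = c3 α + c3 β := by
  obtain ⟨x, y, hx, hy⟩ := prim_iff ha
  obtain ⟨u, v, hu, hv⟩ := prim_iff hb
  have h1 : (α * β).im = 3 * (v + y + 3 * (x * v + y * u - y * v)) := by
    rw [mul_im, hx, hy, hu, hv]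
    ring
  have h2 : (α * β).re = 1 + 3 * (x + u + 3 * (x * u - y * v)) := by
    rw [mul_re, hx, hy, hu, hv]
    ring
  have e1 : yd (α * β) = yd α + yd β := by
    rw [yd_of h1, yd_of hy, yd_of hv]
    push_cast
    rw [three_zero]
    ring
  have e2 : xd (α * β) = xd α + xd β := by
    rw [xd_of h2, xd_of hx, xd_of hu]
    push_cast
    rw [three_zero]
    ring
  unfold c2 c3
  rw [e1, e2]
  exact ⟨by ring, rfl⟩

/-- the symbol of `ω` -/
lemma cs_w' {π : Ei} (h : Pq π) : cs π w = c2 π := by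
  rw [Pool.Agent.E8helper2.CT3.cs_w h]
  obtain ⟨x, y, hx, hy⟩ := prim_iff h.three
  have h1 : nr π = 1 + 3 * (2 * x - y + 3 * (x ^ 2 - x * y + y ^ 2)) := by
    unfold nr
    rw [hx, hy]
    ring
  have h0 : 0 ≤ nr π := nr_nonneg π
  have h2 : ((nn π : ℕ) : ℤ) = 2 * x - y + 3 * (x ^ 2 - x * y + y ^ 2) := by
    unfold nn
    omega
  have h3 : ((nn π : ℕ) : ZMod 3) = (((nn π : ℕ) : ℤ) : ZMod 3) := by push_cast; rfl
  rw [h3, h2]
  unfold c2
  rw [xd_of hx, yd_of hy]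
  push_cast
  have h4 : (2 : ZMod 3) = -1 := by decide
  rw [three_zero, h4]
  ring

theorem t_SUPM : S_SUPM := by
  refine ⟨fun π h => ?_, fun α β ha hb => digits ha hb⟩
  have h3 : cs π 3 = c3 π := Pool.Agent.E8helper2.CT3.t_SUP π h
  refine ⟨cs_w' h, ?_, h3⟩
  have e : (3 : Ei) = -(1 + 2 * w) ^ 2 := by decide
  have hl : ¬ π ∣ 1 + 2 * w := by
    intro hd
    apply h.norm
    rw [e, dvd_neg]
    exact dvd_pow hd two_ne_zero
  have hl2 : ¬ π ∣ (1 + 2 * w) ^ 2 := fun hd => hl (h.prime.dvd_of_dvd_pow hd)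
  have h4 : cs π 3 = 2 * cs π (1 + 2 * w) := by
    rw [e, cs_neg h.prime h.norm hl2, cs_pow h.prime h.norm hl]
    norm_num
  rw [h3] at h4
  rw [h4]
  have h5 : ∀ c : ZMod 3, c = -(2 * c) := by decide
  exact h5 _

end Pool.Agent.E8helper89.CTM
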