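import Pool.Agent.E8helper20.CTM.StmX
import Pool.Agent.Y100.CT.CUB3

/-!
# Project CTM, part X4: local solutions of the diagonal cubic at three, multiplier one
-/

set_option autoImplicit false
set_option linter.unusedSectionVars false
set_option linter.unusedVariables false

namespace Pool.Agent.E8helper89.CTM

open Pool.Agent.Y692.QS
open Pool.Agent.Y715.T.Gi Pool.Agent.Y715.T.Nr Pool.Agent.Y715.T.Df Pool.Agent.Y715.T.Ell
open Pool.Agent.Y715.T.Red Pool.Agent.Y715.T.Thr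
open Pool.Agent.Y703.CT
open Pool.Agent.Y100.CT.CUB3 (cube_res root norm_nine res)
open Pool.Agent.E8helper20.CTM (xd c2 c3 S_CUBM3)
open Pool.Agent.E8helper20.CTK3 (yd)

lemma w_pow_mod (t : ℕ) : (w : Ei) ^ t = w ^ (t % 3) := by
  have h3 : (w : Ei) ^ 3 = 1 := by decide
  exact pow_eq_pow_mod t h3

/-- the congruence for a class which is not `1` modulo `λ²` -/
lemma core3 (s : ℕ) (hs : s = 1 ∨ s = 2) (b d : Ei) (m n : ℤ) (h1 : d.re + d.im = 3 * m)
    (h2 : b.re + b.im = d.im * s + 3 * n) :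
    ∃ z : Ei, (w ^ s * (1 + 3 * b)) ^ 2 + (w ^ s * (1 + 3 * b)) * (1 + 3 * d) = -(1 + 9 * z) := by
  have hw : (w : Ei) ^ 2 + w + 1 = 0 := by decide
  have eb := eta b
  have ed := eta d
  have h1' : (d.re : Ei) + (d.im : Ei) = 3 * (m : Ei) := by
    exact_mod_cast congrArg (Int.cast : ℤ → Ei) h1
  rcases hs with rfl | rfl
  · have h2' : (b.re : Ei) + (b.im : Ei) = d.im + 3 * (n : Ei) := by
      have h3 : b.re + b.im = d.im + 3 * n := by rw [h2]; push_cast; ring
      exact_mod_cast congrArg (Int.cast : ℤ → Ei) h3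
    have key : d - b * (w - 1) = 3 * ((m : Ei) - n * (w - 1) + b.im * w) := by
      conv_lhs => rw [eb, ed]
      linear_combination h1' - (w - 1) * h2' - (b.im : Ei) * hw
    refine ⟨-(b ^ 2 * w ^ 2 + b * d * w + b * w ^ 2 + w * ((m : Ei) - n * (w - 1) + b.im * w)), ?_⟩
    linear_combination hw + 3 * w * key
  · have h2' : (b.re : Ei) + (b.im : Ei) = 2 * d.im + 3 * (n : Ei) := by
      have h3 : b.re + b.im = 2 * d.im + 3 * n := by rw [h2]; push_cast; ring
      exact_mod_cast congrArg (Int.cast : ℤ → Ei) h3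
    have h3 : (w : Ei) ^ 3 = 1 := by decide
    have key : d - b * (w ^ 2 - 1) =
        3 * ((m : Ei) - n * (w ^ 2 - 1) - b.im - d.im * w ^ 2) := by
      conv_lhs => rw [eb, ed]
      linear_combination h1' - (w ^ 2 - 1) * h2' + ((b.im : Ei) + (d.im : Ei)) * hw -
        (b.im : Ei) * h3
    have h4 : (w : Ei) ^ 4 = w := by decide
    refine ⟨-(b ^ 2 * w ^ 4 + b * d * w ^ 2 + b * w ^ 4 +
      w ^ 2 * ((m : Ei) - n * (w ^ 2 - 1) - b.im - d.im * w ^ 2)), ?_⟩
    linear_combination hw + 3 * w ^ 2 * key + h4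

/-- **X4** -/
theorem t_CUBM3 : S_CUBM3 := by
  intro _ I hI B D t hB hD hcD hcB
  obtain ⟨b, hb⟩ := hB
  obtain ⟨d, hd⟩ := hD
  have eB : B = 1 + 3 * b := by linear_combination hb
  have eD : D = 1 + 3 * d := by linear_combination hd
  have r3 : (3 : Ei).re = 3 := rfl
  have i3 : (3 : Ei).im = 0 := rfl
  have r1 : (1 : Ei).re = 1 := rfl
  have i1 : (1 : Ei).im = 0 := rfl
  have dig : ∀ (C y : Ei), C = 1 + 3 * y → xd C = (y.re : ZMod 3) ∧ yd C = (y.im : ZMod 3) := by
    intro C y hC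
    have hre : C.re = 1 + 3 * y.re := by
      rw [hC, QuadraticAlgebra.re_add, mul_re, r3, i3, r1]
      ring
    have him : C.im = 3 * y.im := by
      rw [hC, QuadraticAlgebra.im_add, mul_im, r3, i3, i1]
      ring
    constructor
    · unfold xd
      rw [hre]
      congr 1
      omega
    · unfold yd
      rw [him]
      congr 1
      omega
  obtain ⟨xB, yB⟩ := dig B b eB
  obtain ⟨xD, yD⟩ := dig D d eD
  unfold c2 at hcD hcB
  unfold c3 at hcB
  rw [xD, yD] at hcD
  rw [xB, yB, yD] at hcB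
  have ht : (t : ZMod 3) = ((t % 3 : ℕ) : ZMod 3) := by rw [ZMod.natCast_mod]
  obtain ⟨s, hs⟩ : ∃ s, s = t % 3 := ⟨_, rfl⟩
  have hs2 : s ≤ 2 := by omega
  rw [ht, ← hs] at hcB
  obtain ⟨m, h4⟩ : (3 : ℤ) ∣ d.re + d.im := by
    apply (ZMod.intCast_zmod_eq_zero_iff_dvd _ 3).1
    push_cast
    linear_combination -hcD
  obtain ⟨n, h5⟩ : (3 : ℤ) ∣ b.re + b.im - d.im * s := by
    apply (ZMod.intCast_zmod_eq_zero_iff_dvd _ 3).1
    push_cast
    linear_combination -hcB
  have hwt : (w : Ei) ^ t = w ^ s := by rw [w_pow_mod, ← hs]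
  have hfix : ∀ z : Ei, ∀ τ : Au 3, τ I = I → τ (ev I hI z) = ev I hI z :=
    fun z τ hτ => ev_fix hI hτ z
  have hll : (lam : Ei) ^ 2 = -3 := lam_sq
  rcases Nat.eq_zero_or_pos s with h0 | h0
  · -- `t = 0`: `b` is divisible by `lam`
    rw [h0] at hwt h5
    rw [hwt, pow_zero, one_mul]
    have h5' : (b.re : Ei) + (b.im : Ei) = 3 * (n : Ei) := by
      have h6 : b.re + b.im = 3 * n := by
        push_cast at h5
        linarith
      exact_mod_cast congrArg (Int.cast : ℤ → Ei) h6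
    have hl : (lam : Ei) = 1 + 2 * w := by decide
    have hw : (w : Ei) ^ 2 + w + 1 = 0 := by decide
    obtain ⟨b', eb⟩ : ∃ b', b = lam * b' := by
      refine ⟨(1 + w) * b.im - lam * n, ?_⟩
      conv_lhs => rw [eta b]
      linear_combination h5' - 2 * (b.im : Ei) * hw + (n : Ei) * hll - (1 + w) * (b.im : Ei) * hl
    obtain ⟨u, hu, q, hq⟩ := res (-b')
    have hu3 := cube_res hu
    have ebu : b' = -u - lam * q := by linear_combination -hq
    obtain ⟨z, hz⟩ : ∃ z, B ^ 2 + B * D * (lam * u) ^ 3 = 1 + 9 * z := by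
      refine ⟨b ^ 2 + 2 * q - lam * u - lam * u * (b + d + 3 * b * d), ?_⟩
      rw [eB, eD]
      have h3 : (lam * u) ^ 3 = -3 * lam * u := by
        have : (lam * u) ^ 3 = lam ^ 2 * lam * u ^ 3 := by ring
        rw [this, hll, hu3]
      rw [h3]
      linear_combination 6 * eb + 6 * lam * ebu - 6 * q * hll
    obtain ⟨s, hs, hs0, hsf⟩ := root hI (c := ev I hI (1 + 9 * z)) (hfix _) (by
      rw [map_add, map_one, add_sub_cancel_left]
      exact norm_nine hI z)
    refine ⟨s, 1, ev I hI (lam * u), ⟨fun τ hτ => ⟨hsf τ hτ, map_one τ, hfix _ τ hτ⟩,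
      Or.inl hs0, ?_⟩⟩
    rw [hs, ← hz, map_add, map_mul, map_mul, map_pow, map_pow]
    ring
  · obtain ⟨z, hz⟩ := core3 s (by omega) b d m n h4 (by linarith)
    rw [← eB, ← eD, ← hwt] at hz
    obtain ⟨r, hr, hr0, hrf⟩ := root hI (c := ev I hI (1 + 9 * z)) (hfix _) (by
      rw [map_add, map_one, add_sub_cancel_left]
      exact norm_nine hI z)
    refine ⟨-r, 1, 1, ⟨fun τ hτ => ⟨by rw [map_neg, hrf τ hτ], map_one τ, map_one τ⟩,
      Or.inl (neg_ne_zero.2 hr0), ?_⟩⟩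
    have e : (-r) ^ 3 = ev I hI (-(1 + 9 * z)) := by
      rw [map_neg, ← hr]
      ring
    rw [e, ← hz]
    simp only [map_add, map_mul, map_pow]
    ring

end Pool.Agent.E8helper89.CTM
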